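import Pool.Agent.Helper61_LT.Stmts

/-!
# Squad LT, module GDN: good points
-/

set_option autoImplicit false

namespace Pool.Agent.LT.H10

open Pool.Agent.LT

theorem gd_mono {G : Type} [Group G] {V : Type} (a : V → G → V) {R R' : Finset G} (h : R ⊆ R') :
    Gd a R' ⊆ Gd a R := by
  rintro v ⟨h1, h2, h3⟩
  exact ⟨h1, fun g hg g' hg' => h2 g (h hg) g' (h hg'), fun g hg g' hg' => h3 g (h hg) g' (h hg')⟩

theorem gd_step {G : Type} [Group G] (R R' : Finset G) :
    ∃ R'' : Finset G, R ⊆ R'' ∧ R' ⊆ R'' ∧ ∀ (V : Type) (a : V → G → V) (v : V), v ∈ Gd a R'' →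
      ∀ h ∈ R, a v h ∈ Gd a R' := by
  classical
  refine ⟨R ∪ (R' ∪ ({1} ∪ (Finset.image₂ (· * ·) R R' ∪ Finset.image₂ (· * ·) R' R'))),
    Finset.subset_union_left, ?_, ?_⟩
  · exact fun x hx => Finset.mem_union_right _ (Finset.mem_union_left _ hx)
  intro V a v hv h hh
  set S := R ∪ (R' ∪ ({1} ∪ (Finset.image₂ (· * ·) R R' ∪ Finset.image₂ (· * ·) R' R'))) with hS
  have m1 : ∀ g ∈ R, g ∈ S := fun g hg => Finset.mem_union_left _ hg
  have m2 : ∀ g ∈ R', g ∈ S := fun g hg => Finset.mem_union_right _ (Finset.mem_union_left _ hg)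
  have m3 : (1 : G) ∈ S := Finset.mem_union_right _ (Finset.mem_union_right _
    (Finset.mem_union_left _ (Finset.mem_singleton_self _)))
  have m4 : ∀ g ∈ R, ∀ g' ∈ R', g * g' ∈ S := fun g hg g' hg' =>
    Finset.mem_union_right _ (Finset.mem_union_right _ (Finset.mem_union_right _
      (Finset.mem_union_left _ (Finset.mem_image₂_of_mem hg hg'))))
  have m5 : ∀ g ∈ R', ∀ g' ∈ R', g * g' ∈ S := fun g hg g' hg' =>
    Finset.mem_union_right _ (Finset.mem_union_right _ (Finset.mem_union_right _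
      (Finset.mem_union_right _ (Finset.mem_image₂_of_mem hg hg'))))
  obtain ⟨h1, h2, h3⟩ := hv
  refine ⟨?_, ?_, ?_⟩
  · rw [h2 h (m1 h hh) 1 m3, mul_one]
  · intro g hg g' hg'
    rw [h2 h (m1 h hh) g (m2 g hg), h2 (h * g) (m4 h hh g hg) g' (m2 g' hg'),
      h2 h (m1 h hh) (g * g') (m5 g hg g' hg'), mul_assoc]
  · intro g hg g' hg' e
    rw [h2 h (m1 h hh) g (m2 g hg), h2 h (m1 h hh) g' (m2 g' hg')] at e
    exact mul_left_cancel (h3 _ (m4 h hh g hg) _ (m4 h hh g' hg') e)

theorem gdn : GdnStmt := by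
  intro G _ R k
  constructor
  · induction k with
    | zero =>
      refine ⟨1, fun V _ a _ => ?_⟩
      rw [one_mul]
      exact le_rfl
    | succ k ih =>
      obtain ⟨M, hM⟩ := ih
      refine ⟨1 + R.card * M, fun V _ a ha => ?_⟩
      have hsub : (Gdn a R (k + 1))ᶜ ⊆
          (Gd a R)ᶜ ∪ ⋃ h ∈ R, (fun v => a v h) ⁻¹' (Gdn a R k)ᶜ := by
        intro v hv
        by_cases h1 : v ∈ Gd a R
        · right
          by_contra h2
          apply hv
          refine ⟨h1, fun h hh => ?_⟩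
          by_contra h3
          apply h2
          simp only [Set.mem_iUnion]
          exact ⟨h, hh, h3⟩
        · exact Or.inl h1
      have hpre : ∀ h : G, ((fun v => a v h) ⁻¹' (Gdn a R k)ᶜ).ncard ≤ M * nb a R := by
        intro h
        rw [Set.ncard_preimage_of_injective_subset_range (ha h).1
          (by rw [(ha h).2.range_eq]; exact Set.subset_univ _)]
        exact hM V a ha
      calc ((Gdn a R (k + 1))ᶜ).ncard
          ≤ ((Gd a R)ᶜ ∪ ⋃ h ∈ R, (fun v => a v h) ⁻¹' (Gdn a R k)ᶜ).ncard :=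
            Set.ncard_le_ncard hsub (Set.toFinite _)
        _ ≤ ((Gd a R)ᶜ).ncard + (⋃ h ∈ R, (fun v => a v h) ⁻¹' (Gdn a R k)ᶜ).ncard :=
            Set.ncard_union_le _ _
        _ ≤ nb a R + ∑ h ∈ R, ((fun v => a v h) ⁻¹' (Gdn a R k)ᶜ).ncard := by
            apply Nat.add_le_add le_rfl
            exact Finset.set_ncard_biUnion_le R _
        _ ≤ nb a R + ∑ _h ∈ R, M * nb a R := by
            apply Nat.add_le_add le_rfl
            exact Finset.sum_le_sum fun h _ => hpre h
        _ = (1 + R.card * M) * nb a R := by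
            rw [Finset.sum_const, smul_eq_mul]
            ring
  · induction k with
    | zero => exact ⟨R, Finset.Subset.refl _, fun V a v hv => hv⟩
    | succ k ih =>
      obtain ⟨R', h1, h2⟩ := ih
      obtain ⟨R'', h3, h4, h5⟩ := gd_step R R'
      refine ⟨R'', h3, fun V a v hv => ?_⟩
      exact ⟨gd_mono a h3 hv, fun h hh => h2 V a (h5 V a v hv h hh)⟩

end Pool.Agent.LT.H10
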